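import Pool.Agent.Y262.NU.Stm2

/-!
# Project NU: from the sequence to the perturbed metrics
-/

set_option autoImplicit false

open Set Filter Topology MeasureTheory
open scoped ContDiff ComplexConjugate Real

noncomputable section

namespace Pool.Agent.Y177.NU

open Pool.Agent.Y262.NU Pool.Agent.Y262.QE Pool.Agent.Y262.EG Pool.Agent.Y262.EX

theorem ratio {F0 W0 F W q : ℝ} (hF0 : 0 ≤ F0) (hW0 : 0 < W0) (hq : 1 ≤ q) (h1 : F0 ≤ F)
    (h2 : F ≤ q * F0) (h3 : W0 ≤ W) (h4 : W ≤ q * W0) :
    |F / W - F0 / W0| ≤ (q - 1) * (F0 / W0) := by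
  have hW : 0 < W := hW0.trans_le h3
  set A : ℝ := F0 / W0 with hA
  have hA0 : 0 ≤ A := div_nonneg hF0 hW0.le
  have hAW : A * W0 = F0 := div_mul_cancel₀ _ hW0.ne'
  have hup : F / W ≤ q * A := by
    rw [div_le_iff₀ hW]
    calc F ≤ q * F0 := h2
      _ = q * A * W0 := by rw [← hAW]; ring
      _ ≤ q * A * W := by gcongr
  have hlo : (2 - q) * A ≤ F / W := by
    rw [le_div_iff₀ hW]
    rcases le_or_gt q 2 with hq2 | hq2
    · have h5 : 0 ≤ (2 - q) * A := mul_nonneg (by linarith) hA0
      calc (2 - q) * A * W ≤ (2 - q) * A * (q * W0) := by gcongr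
        _ = (2 - q) * q * F0 := by rw [← hAW]; ring
        _ ≤ 1 * F0 := by
            apply mul_le_mul_of_nonneg_right _ hF0
            nlinarith [sq_nonneg (q - 1)]
        _ ≤ F := by rw [one_mul]; exact h1
    · have h5 : (2 - q) * A * W ≤ 0 := by
        have : 0 ≤ (q - 2) * A * W := by
          have : 0 ≤ q - 2 := by linarith
          positivity
        linarith
      linarith
  rw [abs_le]
  constructor <;> linarith

theorem exists_bd {M : Type} [MetricSpace M] [CompactSpace M] (f : M → ℝ) (hf : Continuous f) :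
    ∃ K : ℝ, ∀ x, f x ≤ K := by
  obtain ⟨K, hK⟩ := isCompact_univ.exists_bound_of_continuousOn hf.continuousOn
  exact ⟨K, fun x => (le_abs_self _).trans (hK x (mem_univ _))⟩

theorem cint {M : Type} [MetricSpace M] [CompactSpace M] [MeasurableSpace M] [BorelSpace M]
    (μ : Measure M) [IsFiniteMeasure μ] (f : M → ℝ) (hf : Continuous f) : Integrable f μ :=
  hf.integrable_of_hasCompactSupport (HasCompactSupport.of_compactSpace f)

theorem dev (hForms : StForms) (hAbs1 : StAbs1) (hAbs2 : StAbs2) : StDev := by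
  intro M _ _ _ _ μ _ w f ψ H _ _ _ i a b0 hwc hw hfc hf hψc hψ hb0 hFm u lam hlam hu hau hnt
  -- the bound
  obtain ⟨K1, hK1⟩ := exists_bd f hfc
  obtain ⟨K2, hK2⟩ := exists_bd ψ hψc
  set K0 : ℝ := max 1 (max K1 K2) with hK0
  have hK01 : 1 ≤ K0 := le_max_left _ _
  have hfK : ∀ x, f x ≤ K0 := fun x => (hK1 x).trans ((le_max_left _ _).trans (le_max_right _ _))
  have hψK : ∀ x, ψ x ≤ K0 := fun x => (hK2 x).trans ((le_max_right _ _).trans (le_max_right _ _))
  -- the averages
  set IF : ℝ → ℝ → ℝ := fun t τ => ∫ x, f x * (Real.exp (t * f x + τ * ψ x) * w x) ∂μ with hIF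
  set IW : ℝ → ℝ → ℝ := fun t τ => ∫ x, Real.exp (t * f x + τ * ψ x) * w x ∂μ with hIW
  set F0 : ℝ := ∫ x, f x * w x ∂μ with hF0
  set W0 : ℝ := ∫ x, w x ∂μ with hW0
  set A0 : ℝ := F0 / W0 with hA0
  have hF0n : 0 ≤ F0 := integral_nonneg fun x => mul_nonneg (hf x) (hw x).le
  have hμ : μ ≠ 0 := by
    rintro rfl
    have := hu 0
    rw [integral_zero_measure] at this
    exact zero_ne_one this
  have hW0p : 0 < W0 := by
    rw [hW0, integral_pos_iff_support_of_nonneg (fun x => (hw x).le) (cint μ w hwc)]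
    have h1 : Function.support w = univ := by
      ext x
      simp [(hw x).ne']
    rw [h1]
    exact pos_iff_ne_zero.2 (by rwa [Ne, Measure.measure_univ_eq_zero])
  have hA0n : 0 ≤ A0 := div_nonneg hF0n hW0p.le
  have hcW : ∀ t τ : ℝ, Continuous fun x => Real.exp (t * f x + τ * ψ x) * w x := by
    intro t τ
    fun_prop
  have hcF : ∀ t τ : ℝ, Continuous fun x => f x * (Real.exp (t * f x + τ * ψ x) * w x) := by
    intro t τ
    fun_prop
  have hrat : ∀ d t τ : ℝ, 0 ≤ t → t ≤ d → 0 ≤ τ → τ ≤ d →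
      |IF t τ / IW t τ - A0| ≤ (Real.exp (2 * K0 * d) - 1) * A0 := by
    intro d t τ ht0 ht hτ0 hτ
    have hd : 0 ≤ d := ht0.trans ht
    have h1 : ∀ x, 0 ≤ t * f x + τ * ψ x := fun x =>
      add_nonneg (mul_nonneg ht0 (hf x)) (mul_nonneg hτ0 (hψ x))
    have h2 : ∀ x, t * f x + τ * ψ x ≤ 2 * K0 * d := by
      intro x
      have h3 : t * f x ≤ d * K0 := mul_le_mul ht (hfK x) (hf x) hd
      have h4 : τ * ψ x ≤ d * K0 := mul_le_mul hτ (hψK x) (hψ x) hd
      linarith
    have h3 : ∀ x, w x ≤ Real.exp (t * f x + τ * ψ x) * w x := fun x => by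
      have := Real.one_le_exp (h1 x)
      nlinarith [hw x]
    have h4 : ∀ x, Real.exp (t * f x + τ * ψ x) * w x ≤ Real.exp (2 * K0 * d) * w x := fun x =>
      mul_le_mul_of_nonneg_right (Real.exp_le_exp.2 (h2 x)) (hw x).le
    apply ratio hF0n hW0p (Real.one_le_exp (by positivity))
    · exact integral_mono (cint μ _ (hfc.mul hwc)) (cint μ _ (hcF t τ)) fun x =>
        mul_le_mul_of_nonneg_left (h3 x) (hf x)
    · rw [hF0, ← integral_const_mul]
      refine integral_mono (cint μ _ (hcF t τ)) (cint μ _ ((hfc.mul hwc).const_mul _)) fun x => ?_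
      have := mul_le_mul_of_nonneg_left (h4 x) (hf x)
      calc _ ≤ _ := this
        _ = _ := by ring
    · exact integral_mono (cint μ _ hwc) (cint μ _ (hcW t τ)) fun x => h3 x
    · rw [hW0, ← integral_const_mul]
      exact integral_mono (cint μ _ (hcW t τ)) (cint μ _ (hwc.const_mul _)) fun x => h4 x
  -- the gap
  obtain ⟨c', hc', hgap⟩ : ∃ c' : ℝ, 0 < c' ∧ ∀ N : ℕ, ∃ j, N ≤ j ∧
      c' ≤ |(∫ x, f x * (w x * (i (u j) x) ^ 2) ∂μ) - A0| := by
    by_contra hcon
    apply hnt
    rw [Metric.tendsto_atTop]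
    intro e he
    by_contra h2
    push Not at h2
    apply hcon
    refine ⟨e, he, fun N => ?_⟩
    obtain ⟨j, hj, hje⟩ := h2 N
    exact ⟨j, hj, by rwa [Real.dist_eq] at hje⟩
  set c : ℝ := c' / 3 with hc
  have hc0 : 0 < c := by positivity
  refine ⟨c, hc0, fun ε hε => ?_⟩
  by_contra hcon
  push Not at hcon
  set K : ℝ := max (K0 ^ 2 * Real.exp K0) (A0 + 2 * c) with hK
  obtain ⟨b, k, hb, hk, hfl⟩ := hForms M μ w f ψ H i a b0 K0 hwc hw hfc
    (fun x => ⟨hf x, hfK x⟩) hψc (fun x => ⟨hψ x, hψK x⟩) hK01 hb0 hFm K (le_max_left _ _)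
  -- the radius
  obtain ⟨e1, he10, he1ε, he1⟩ : ∃ e1 : ℝ, 0 < e1 ∧ e1 ≤ ε ∧
      (Real.exp (2 * K0 * e1) - 1) * A0 ≤ c := by
    have h1 : Tendsto (fun d : ℝ => (Real.exp (2 * K0 * d) - 1) * A0) (𝓝 0)
        (𝓝 ((Real.exp (2 * K0 * 0) - 1) * A0)) := by
      have : Continuous fun d : ℝ => (Real.exp (2 * K0 * d) - 1) * A0 := by fun_prop
      exact this.tendsto 0
    rw [mul_zero, Real.exp_zero, sub_self, zero_mul] at h1
    have h2 : ∀ᶠ d in 𝓝 (0 : ℝ), (Real.exp (2 * K0 * d) - 1) * A0 < c :=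
      h1.eventually_lt_const hc0
    obtain ⟨δ, hδ, h3⟩ := Metric.eventually_nhds_iff.1 h2
    refine ⟨min ε (δ / 2), lt_min hε (by positivity), min_le_left _ _, (h3 ?_).le⟩
    have h4 : 0 < min ε (δ / 2) := lt_min hε (by positivity)
    rw [Real.dist_eq, sub_zero, abs_of_pos h4]
    exact (min_le_right _ _).trans_lt (by linarith)
  have key : ∀ t ∈ Ioo 0 e1, ∀ τ ∈ Ioo 0 e1, ∀ (lam' : ℝ) (v : H), 1 / ε < lam' →
      (∀ v', a v v' = lam' * b t τ v v') →
      |k t τ v v - A0 * b t τ v v| ≤ 2 * c * b t τ v v := by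
    intro t ht τ hτ lam' v hl hv
    have hkb := ((hfl.fly τ).kb t v)
    have hKp : 0 < K := lt_of_lt_of_le one_pos hfl.one
    have hkb1 : 0 ≤ k t τ v v := hkb.1
    have hkb2 : k t τ v v ≤ K * b t τ v v := hkb.2
    have hB0 : 0 ≤ b t τ v v := by
      by_contra h
      push Not at h
      nlinarith
    rcases hB0.eq_or_lt with hB | hB
    · rw [← hB] at hkb2 ⊢
      have : k t τ v v = 0 := by linarith
      rw [this]
      simp
    · set s : ℝ := (√(b t τ v v))⁻¹ with hs
      have hss : s * s * b t τ v v = 1 := by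
        rw [hs, ← mul_inv, Real.mul_self_sqrt hB.le, inv_mul_cancel₀ hB.ne']
      have hb1 : b t τ (s • v) (s • v) = 1 := by
        rw [map_smul, map_smul]
        simp only [_root_.smul_apply, smul_eq_mul]
        rw [← mul_assoc]
        exact hss
      have hk1 : k t τ (s • v) (s • v) = s * s * k t τ v v := by
        rw [map_smul, map_smul]
        simp only [_root_.smul_apply, smul_eq_mul]
        ring
      have h1 := hcon t τ lam' (s • v) ht.1 (ht.2.trans_le he1ε) hτ.1 (hτ.2.trans_le he1ε) hl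
        (by
          rw [← hb1, hb]
          refine integral_congr_ae (Eventually.of_forall fun x => ?_)
          dsimp only
          ring)
        (by
          intro v'
          have h2 : b t τ (s • v) v' = ∫ x, Real.exp (t * f x + τ * ψ x) * w x *
            (i (s • v) x * i v' x) ∂μ := hb t τ (s • v) v'
          rw [← h2, map_smul, map_smul]
          simp only [_root_.smul_apply, smul_eq_mul]
          rw [hv v']
          ring)
      have h3 : (∫ x, f x * (Real.exp (t * f x + τ * ψ x) * w x * (i (s • v) x) ^ 2) ∂μ) =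
          s * s * k t τ v v := by
        rw [← hk1, hk]
        refine integral_congr_ae (Eventually.of_forall fun x => ?_)
        dsimp only
        ring
      rw [h3] at h1
      have h4 := hrat e1 t τ ht.1.le ht.2.le hτ.1.le hτ.2.le
      have h5 : |s * s * k t τ v v - IF t τ / IW t τ| < c := h1
      have h6 : |s * s * k t τ v v - A0| ≤ 2 * c := by
        calc |s * s * k t τ v v - A0| = |(s * s * k t τ v v - IF t τ / IW t τ) +
              (IF t τ / IW t τ - A0)| := by ring_nf
          _ ≤ _ := abs_add_le _ _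
          _ ≤ 2 * c := by linarith
      have h7 : k t τ v v - A0 * b t τ v v = (s * s * k t τ v v - A0) * b t τ v v := by
        have : s * s * k t τ v v * b t τ v v = k t τ v v := by
          calc s * s * k t τ v v * b t τ v v = (s * s * b t τ v v) * k t τ v v := by ring
            _ = _ := by rw [hss, one_mul]
        rw [sub_mul, this]
      rw [h7, abs_mul, abs_of_pos hB]
      exact mul_le_mul_of_nonneg_right h6 hB.le
  have hlo0 : 0 ≤ 1 / ε := by positivity
  have hA := hAbs1 H a b k K hfl (max 0 (A0 - 2 * c)) (1 / ε) e1 (le_max_left _ _) hlo0 he10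
    (by
      intro t ht τ hτ lam' v hl hv
      have h1 := abs_le.1 (key t ht τ hτ lam' v hl hv)
      have h2 : 0 ≤ k t τ v v := ((hfl.fly τ).kb t v).1
      rcases max_cases 0 (A0 - 2 * c) with h | h
      · rw [h.1, zero_mul]
        exact h2
      · rw [h.1]
        linarith [h1.1])
  have hB := hAbs2 H a b k K hfl (A0 + 2 * c) (1 / ε) e1 (by linarith) (le_max_right _ _) hlo0
    he10
    (by
      intro t ht τ hτ lam' v hl hv
      have h1 := abs_le.1 (key t ht τ hτ lam' v hl hv)
      linarith [h1.2])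
  obtain ⟨N, hN⟩ := eventually_atTop.1 (hlam.eventually_gt_atTop (1 / ε))
  obtain ⟨j, hj, hjc⟩ := hgap N
  have hj1 := hN j hj
  have hb00 : ∀ v, b 0 0 (u j) v = ∫ x, w x * (i (u j) x * i v x) ∂μ := by
    intro v
    rw [hb]
    refine integral_congr_ae (Eventually.of_forall fun x => ?_)
    dsimp only
    rw [zero_mul, zero_mul, add_zero, Real.exp_zero, one_mul]
  have hb1 : b 0 0 (u j) (u j) = 1 := by
    rw [hb00, ← hu j]
    refine integral_congr_ae (Eventually.of_forall fun x => ?_)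
    dsimp only
    ring
  have hk1 : k 0 0 (u j) (u j) = ∫ x, f x * (w x * (i (u j) x) ^ 2) ∂μ := by
    rw [hk]
    refine integral_congr_ae (Eventually.of_forall fun x => ?_)
    dsimp only
    rw [zero_mul, zero_mul, add_zero, Real.exp_zero, one_mul]
    ring
  have hau' : ∀ v, a (u j) v = lam j * b 0 0 (u j) v := by
    intro v
    rw [hb00]
    exact hau j v
  have h1 := hA (lam j) (u j) hj1 hau'
  have h2 := hB (lam j) (u j) hj1 hau'
  rw [hb1, mul_one, hk1] at h1 h2
  have h3 : |(∫ x, f x * (w x * (i (u j) x) ^ 2) ∂μ) - A0| ≤ 2 * c := by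
    rw [abs_le]
    have := le_max_right 0 (A0 - 2 * c)
    constructor <;> linarith
  have h4 : c' = 3 * c := by rw [hc]; ring
  linarith

end Pool.Agent.Y177.NU
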